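import Pool.Agent.MP_c69980_ag.H43.Spec1

/-!
Extension of derivations to `ℂ`, through ring homomorphisms to the dual numbers.
-/

set_option autoImplicit false

namespace Pool.Agent.MP_c69980_ag.H43

open TrivSqZeroExt

theorem ext_smooth (R : Type) [CommRing R] [IsDomain R] [Algebra R ℂ]
    (h : Function.Injective (algebraMap R ℂ)) : Algebra.FormallySmooth R ℂ := by
  let K := FractionRing R
  let _ : Algebra K ℂ := (IsFractionRing.lift h).toAlgebra
  have _ : IsScalarTower R K ℂ := .of_algebraMap_eq fun a =>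
    (IsFractionRing.lift_algebraMap h a).symm
  have _ : Algebra.FormallySmooth R K := .of_isLocalization (nonZeroDivisors R)
  have _ : CharZero K := (algebraMap K ℂ).charZero
  obtain ⟨s, hs⟩ := exists_isTranscendenceBasis K ℂ
  have _ := hs.isAlgebraic_field
  have _ : Algebra.FormallySmooth K ℂ := .of_algebraicIndependent_of_isSeparable hs.1
  exact .comp R K ℂ

theorem ext_inj (R : Type) [CommRing R] (ψ : R →+* DualNumber ℂ)
    (h : Function.Injective fun x => (ψ x).fst) :
    ∃ D : Derivation ℚ ℂ ℂ, ∀ x, D (ψ x).fst = (ψ x).snd := by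
  let π : DualNumber ℂ →+* ℂ := (fstHom ℂ ℂ ℂ).toRingHom
  have _ : IsDomain R := Function.Injective.isDomain (π.comp ψ) h
  let _ : Algebra R ℂ := (π.comp ψ).toAlgebra
  let _ : Algebra R (DualNumber ℂ) := ψ.toAlgebra
  have _ := ext_smooth R h
  let g : DualNumber ℂ →ₐ[R] ℂ := { π with commutes' := fun _ => rfl }
  have h1 : Function.Surjective g := fun x => ⟨inl x, rfl⟩
  have h2 : IsNilpotent (RingHom.ker (g : DualNumber ℂ →+* ℂ)) := ⟨2, by
    refine (pow_two (RingHom.ker π)).trans (le_bot_iff.1 ?_)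
    rw [Ideal.mul_le]
    intro x hx y hy
    have a : x.fst = 0 := hx
    have b : y.fst = 0 := hy
    exact TrivSqZeroExt.ext (by simp [a]) (by simp [a, b])⟩
  let f := Algebra.FormallySmooth.liftOfSurjective (AlgHom.id R ℂ) g h1 h2
  have e : ∀ x, (f x).fst = x :=
    Algebra.FormallySmooth.liftOfSurjective_apply (AlgHom.id R ℂ) g h1 h2
  let d : ℂ →+ ℂ := ⟨⟨fun x => (f x).snd, by simp⟩, fun x y => by simp⟩
  refine ⟨Derivation.mk' d.toRatLinearMap fun x y => ?_, fun x => congrArg snd (f.commutes x)⟩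
  change (f (x * y)).snd = x • (f y).snd + y • (f x).snd
  simp [e, mul_comm]

theorem ext_hom (A : Type) [CommRing A] (ψ : A →+* DualNumber ℂ)
    (h : ∀ x, (ψ x).fst = 0 → (ψ x).snd = 0) :
    ∃ D : Derivation ℚ ℂ ℂ, ∀ x, D (ψ x).fst = (ψ x).snd := by
  obtain ⟨D, hD⟩ := ext_inj _ ψ.kerLift ((injective_iff_map_eq_zero
    ((fstHom ℂ ℂ ℂ).toRingHom.comp ψ.kerLift)).2 fun x hx => by
      obtain ⟨x, rfl⟩ := Ideal.Quotient.mk_surjective x
      exact Ideal.Quotient.eq_zero_iff_mem.2 (TrivSqZeroExt.ext hx (h x hx)))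
  exact ⟨D, fun x => hD (Ideal.Quotient.mk _ x)⟩

theorem sExt : SExt := by
  refine ⟨fun A _ φ d h1 h2 => ?_, fun F ι b hb v => ?_⟩
  · have h0 : d 1 = 0 := by simpa using h1 1 1
    exact ext_hom A
      { toFun := fun x => ⟨φ x, d x⟩
        map_one' := TrivSqZeroExt.ext φ.map_one h0
        map_mul' := fun x y => TrivSqZeroExt.ext (φ.map_mul x y)
          ((h1 x y).trans (congrArg (φ x * d y + ·) (mul_comm _ _)))
        map_zero' := TrivSqZeroExt.ext φ.map_zero d.map_zero
        map_add' := fun x y => TrivSqZeroExt.ext (φ.map_add x y) (d.map_add x y) } h2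
  · let ψ : MvPolynomial ι F →ₐ[F] DualNumber ℂ :=
      MvPolynomial.aeval fun i => inl (b i) + inr (v i)
    have e0 : (fstHom F ℂ ℂ).comp ψ = MvPolynomial.aeval b :=
      MvPolynomial.algHom_ext fun i => by simp [ψ]
    have e : ∀ x, (ψ x).fst = MvPolynomial.aeval b x := AlgHom.congr_fun e0
    obtain ⟨D, hD⟩ := ext_inj _ ψ.toRingHom fun x y hxy => hb ((e x).symm.trans (hxy.trans (e y)))
    refine ⟨D, fun c hc => ?_, fun i => ?_⟩
    · change D (algebraMap F ℂ ⟨c, hc⟩) = 0
      simpa [ψ, algebraMap_eq_inl'] using hD (MvPolynomial.C ⟨c, hc⟩)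
    · simpa [ψ] using hD (MvPolynomial.X i)

end Pool.Agent.MP_c69980_ag.H43
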