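import Pool.Agent.MP_c69980_ag.H43.Spec6

/-!
An algebraic leaf has constant tangent space, over abstract fields.
-/

set_option autoImplicit false

namespace Pool.Agent.MP_c69980_ag.H43

open MvPolynomial H60 Finset Matrix

theorem sGKrig (h1 : SDown) (h2 : SLin) : SGKrig := by
  intro t a M w Θ PP hE Ω _ _ y F s μ δ hy hF hμ hδ hv hd
  obtain ⟨k, kc, hk⟩ := hE.exists
  have : ∀ c b : Fin (s + 1) → Fin M, ∃ P : MvPolynomial (Fin (s + 1)) F,
      aeval (fun i => y (c i) / y (b i)) P = 0 ∧ P ≠ 0 := fun c b => by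
    simpa only [algebraicIndependent_iff, not_forall, exists_prop] using
      hd (fun i => y (c i) / y (b i)) fun i => ⟨_, _, rfl⟩
  choose P P1 P0 using this
  obtain ⟨Ω₀, φ, D, p, -, hT, e1, -, e2, e3⟩ := h1 t a M w Θ k Ω (Fin s) Unit
    (fun l => (δ l).restrictScalars ℤ) (fun _ => y)
    (Set.range (fun x : Fin s × Fin (t + a) => μ x.1 x.2) ∪ Set.range
      fun x : _ × _ × (Fin (s + 1) →₀ ℕ) => ((coeff x.2.2 (P x.1 x.2.1) : F) : Ω))
    kc hk.clh
    (fun l c _ => (δ l).map_algebraMap c) (fun _ => hy)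
    ((Set.countable_range _).union (Set.countable_range _))
  choose k1 k2 using e1
  choose y1 y2 using e3 ()
  have m1 : ∀ l i, μ l i ∈ Ω₀ := fun l i => hT (Or.inl ⟨(l, i), rfl⟩)
  obtain ⟨J, B, b1, b2⟩ := (h2 Ω Ω₀).2 s _ μ hμ m1
  let μ₀ : Fin s → Pt t a := fun l i => φ ⟨μ l i, m1 l i⟩
  have AB : (of fun l m => μ₀ l (J m)) * (of fun j l => φ ⟨B j l, b1 j l⟩) = 1 := by
    rw [mul_eq_one_comm]
    ext j m
    simp only [mul_apply, of_apply, μ₀, ← map_mul, ← map_sum, one_apply]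
    rw [← map_one φ, ← map_zero φ, ← apply_ite φ]
    refine congrArg φ (Subtype.ext ?_)
    simpa [apply_ite Subtype.val] using b2 j m
  have sol : ∀ g : Fin s → ℂ, ∀ j, g j = ∑ m, (∑ l, g l • μ₀ l) (J m) * φ ⟨B m j, b1 m j⟩ :=
    fun g j => by
      have := congrFun (congrArg (vecMul g) AB) j
      rw [vecMul_one, ← vecMul_vecMul] at this
      simpa [vecMul, dotProduct] using this.symm
  let F₁ : Subfield Ω₀ := F.toSubfield.comap Ω₀.subtype
  let e : k →+* Ω₀ := ((algebraMap ℂ Ω).comp k.subtype).codRestrict Ω₀ fun c => k1 c c.2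
  obtain ⟨β, hβ⟩ := exists_ch hy.blk
  have hp : Ch w β (Θ (p ())) := fun o => ⟨(hβ o).1, fun h => by
    have := y2 (β o) (β o)
    rw [h, div_zero, map_eq_zero, Subtype.ext_iff] at this
    exact div_ne_zero (hβ o).2 (hβ o).2 this⟩
  have ev : ∀ Q : CP M t, Cf k Q → ∃ u : Ω₀, (u : Ω) = aeval (co β y) Q ∧
      φ u = eval (co β (Θ (p ()))) Q := fun Q hQ => by
    obtain ⟨Q, rfl⟩ := cf_iff.1 hQ
    refine ⟨eval₂ e (fun x => ⟨_, y1 x.1 (β x.2)⟩) Q, ?_, ?_⟩
    · rw [aeval_def, eval₂_map]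
      exact eval₂_comp_left Ω₀.subtype _ _ _
    · rw [eval_map, eval₂_comp_left]
      congr 1
      · exact RingHom.ext fun c => k2 c c.2
      · exact funext fun x => y2 _ _
  obtain ⟨lam, l1, l2, l3⟩ := hk.rig (F₁.map φ) (p ()) s μ₀ D
    (fun c hc => ⟨⟨_, k1 c hc⟩, F.algebraMap_mem c, k2 c hc⟩)
    (fun l i => ⟨_, hF l i, rfl⟩)
    (Fintype.linearIndependent_iff.2 fun g hg j => by rw [sol g j, hg]; simp)
    (fun l => ⟨by
      rintro _ ⟨x, hx, rfl⟩
      obtain ⟨h, e⟩ := e2 l x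
      exact e.trans ((congrArg φ (Subtype.ext (hδ l x hx))).trans φ.map_zero),
      (hk.tan_iff hp).2 fun x => by
        choose u u1 u2 using fun i => ev _ (hk.cf β i x)
        obtain ⟨h, e⟩ := e2 l ⟨_, y1 x.1 (β x.2)⟩
        rw [y2] at e
        refine e.trans ?_
        simp only [vf_eq, ← u2, μ₀, ← map_mul, ← map_sum]
        refine congrArg φ (Subtype.ext ((hv l β hβ x).trans ?_))
        simp [vf, u1]⟩)
    (by
      rintro ⟨x, hx, hi⟩
      choose c b hx using hx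
      let j : F₁ →+* F := (Ω₀.subtype.comp F₁.subtype).codRestrict F fun z => z.2
      obtain ⟨Q, hQ⟩ : P c b ∈ Set.range (map j) := by
        refine mem_range_map_iff_coeffs_subset.2 fun z hz => ?_
        obtain ⟨m, -, rfl⟩ := mem_coeffs_iff.1 hz
        exact ⟨⟨⟨_, hT (Or.inr ⟨(c, b, m), rfl⟩)⟩, (coeff m (P c b)).2⟩, rfl⟩
      let ψ : F₁ →+* F₁.map φ := (φ.comp F₁.subtype).codRestrict _ fun z => ⟨z, z.2, rfl⟩
      have h0 : eval₂ F₁.subtype (fun i => ⟨_, y1 (c i) (b i)⟩) Q = 0 := Subtype.ext (by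
        have := P1 c b
        rw [← hQ, aeval_def, eval₂_map] at this
        exact (eval₂_comp_left Ω₀.subtype _ _ _).trans this)
      have h3 := algebraicIndependent_iff.1 hi (map ψ Q) (by
        rw [aeval_def, eval₂_map, ← φ.map_zero, ← h0, eval₂_comp_left]
        congr 1
        exact funext fun i => (hx i).trans (y2 _ _).symm)
      exact P0 c b (by rw [← hQ, (map_eq_zero_iff _ (map_injective ψ ψ.injective)).1 h3, map_zero]))
  refine ⟨lam, l2, fun l => ?_⟩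
  obtain ⟨g, hg⟩ := (Submodule.mem_span_range_iff_exists_fun ℂ).1 (l3 l)
  refine (Submodule.mem_span_range_iff_exists_fun Ω).2
    ⟨fun j => ∑ m, algebraMap ℂ Ω (lam l (J m)) * B m j, funext fun i => ?_⟩
  have : ∑ j, (∑ m, e ⟨_, l1 l (J m)⟩ * ⟨B m j, b1 m j⟩) * ⟨μ j i, m1 j i⟩ = e ⟨_, l1 l i⟩ := by
    have he : ∀ i, φ (e ⟨_, l1 l i⟩) = lam l i := fun i => k2 _ (l1 l i)
    apply φ.injective
    simp only [map_sum, map_mul, he]
    rw [← hg]
    simp only [← sol]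
    simp [μ₀]
  simpa [show ∀ c, (e c : Ω) = algebraMap ℂ Ω c from fun _ => rfl] using congrArg Subtype.val this

end Pool.Agent.MP_c69980_ag.H43
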