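import Pool.Agent.MP_c69980_ag.H43.Spec4

/-!
Construction of the analytic package.
-/

set_option autoImplicit false

namespace Pool.Agent.MP_c69980_ag.H43

open H60 Finset Filter Topology Metric Real

/-- The data from which the package is built. -/
structure BldD (N : ℕ) where
  R : ℕ → ℝ
  L : ℕ → ℝ
  σ : ℕ → ℝ
  r₀ : ℕ → ℝ
  η₀ : ℕ → ℝ
  r : ℕ → ℝ
  τ : ℕ → ℝ
  C : ℝ
  p : ℕ → ℂ → Fin N → ℂ
  en : ℕ → ℕ → ℂ → ℂ
  U : Ultrafilter ℕ
  pt : (ℂ → ℂ) → ℝ → ℝ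
  hU : (U : Filter ℕ) ≤ atTop
  hC : 0 ≤ C
  hp : ∀ n, DifferentiableOn ℂ (p n) (ball 0 (R n))
  hL : ∀ n, ‖p n 0‖ ≤ L n
  st : ∀ n, St3 n (L n) (R n) C (p n) (fun j => en j n) (σ n) (r₀ n) (η₀ n) (r n) (τ n)
  τle : ∀ n, (∀ z, ‖z‖ = r n → ‖p n z‖ ^ 2 + 1 ≤ 5 * sc (p n) (r₀ n + η₀ n) ^ 2) →
    τ n ≤ C * (5 * sc (p n) (r₀ n + η₀ n) ^ 2) + L n + 1
  hpt : ∀ h R', 2 ≤ pt h R' ∧ pt h R' ≤ 3 ∧ (Hol R' h → 8 < R' → ∀ A s : ℝ, 0 ≤ A → 0 ≤ s →
    NZ R' h → (∀ z, ‖z‖ ≤ 8 → ‖h z‖ ≤ exp A) → -s ≤ av h 1 →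
    ∀ w, ‖w‖ = pt h R' → exp (-(12 * (A + s) + 1)) ≤ ‖h w‖)
  Tadd : ∀ x ∈ Set.range en, ∀ y ∈ Set.range en, x + y ∈ Set.range en
  Tmul : ∀ x ∈ Set.range en, ∀ y ∈ Set.range en, x * y ∈ Set.range en
  Tneg : ∀ x ∈ Set.range en, -x ∈ Set.range en
  Tdd : ∀ x ∈ Set.range en, dd R x ∈ Set.range en
  Tcc : ∀ x ∈ Set.range en, ∀ y ∈ Set.range en,
    (fun k _ => x k (pt (y k) (R k)) / y k (pt (y k) (R k))) ∈ Set.range en
  T0 : (fun _ _ => 0) ∈ Set.range en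
  T1 : (fun _ _ => 1) ∈ Set.range en

namespace BldD

variable {N : ℕ} (d : BldD N)

/-- The lower scale. -/
noncomputable def s (k : ℕ) : ℝ := sc (d.p k) (d.σ k) ^ 2

/-- The upper radius. -/
noncomputable def B (k : ℕ) : ℝ := d.σ k ^ ex3 k

/-- The upper scale. -/
noncomputable def t (k : ℕ) : ℝ := sc (d.p k) (d.B k) ^ 2

/-- The middle scale. -/
noncomputable def m (k : ℕ) : ℝ := sc (d.p k) (d.r₀ k + d.η₀ k) ^ 2 + d.τ k

lemma σ1 (k : ℕ) : 1024 ≤ d.σ k := (d.st k).hσ.1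

lemma σ0 (k : ℕ) : 0 < d.σ k := by linarith [d.σ1 k]

lemma η0 (k : ℕ) : 0 < d.η₀ k := (d.st k).rad.2.1

lemma L0 (k : ℕ) : 0 ≤ d.L k := (norm_nonneg _).trans (d.hL k)

lemma rads (k : ℕ) : d.σ k ≤ d.σ k ^ 4 ∧ (4 * d.σ k ^ 4) ^ 2 ≤ 1 / 2 * d.B k ∧
    d.B k < d.σ k ^ (ex3 k + 1) ∧ d.B k < d.R k ∧ 2 * d.σ k ^ 4 < d.B k := by
  have h1 := d.σ1 k
  have a0 : d.σ k ≤ d.σ k ^ 4 := le_self_pow₀ (by linarith) (by norm_num)
  have a1 : d.σ k ^ 10 ≤ d.B k := pow_le_pow_right₀ (by linarith) (by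
    have := Nat.pow_le_pow_right (n := 2) two_pos (show 1 ≤ k + 1 by omega)
    unfold ex3; omega)
  have a2 : d.B k < d.σ k ^ (ex3 k + 1) := pow_lt_pow_right₀ (by linarith) (by omega)
  have a3 : (4 * d.σ k ^ 4) ^ 2 ≤ 1 / 2 * d.B k := by
    have e : d.σ k ^ 10 = d.σ k ^ 2 * (d.σ k ^ 4) ^ 2 := by ring
    have : 32 ≤ d.σ k ^ 2 := by nlinarith
    nlinarith [sq_nonneg (d.σ k ^ 4)]
  refine ⟨a0, a3, a2, a2.trans (d.st k).hσ.2.2.2, ?_⟩
  nlinarith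

lemma q (k : ℕ) : 1024 ≤ 2 * d.σ k ^ 4 ∧ 2 * d.σ k ^ 4 < d.R k := by
  obtain ⟨a, -, -, b, c⟩ := d.rads k
  exact ⟨by linarith [d.σ1 k], c.trans b⟩

lemma σR (k : ℕ) : d.σ k < d.R k := by linarith [(d.rads k).1, d.q k, d.σ0 k]

lemma R1 (k : ℕ) : 1 < d.R k := by linarith [d.q k]

lemma B0 (k : ℕ) : 0 < d.B k := pow_pos (d.σ0 k) _

lemma mR (k : ℕ) : d.r₀ k + d.η₀ k < d.R k := (d.st k).rad.2.2.1.trans_lt (d.q k).2

lemma σm (k : ℕ) : d.σ k ≤ d.r₀ k + d.η₀ k := by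
  linarith [(d.rads k).1, (d.st k).rad.1, d.η0 k]

lemma r1 (k : ℕ) : 1 ≤ d.r k := by
  linarith [(d.rads k).1, (d.st k).rad.1, (d.st k).rad.2.2.2.1, d.η0 k, d.σ1 k]

lemma r0 (k : ℕ) : 0 < d.r k := by linarith [d.r1 k]

lemma rR (k : ℕ) : d.r k < d.R k := by linarith [d.mR k, (d.st k).rad.2.2.2.2, d.η0 k]

lemma sc_ge (k : ℕ) {ρ : ℝ} (h1 : d.σ k ≤ ρ) (h2 : ρ < d.R k) : d.σ k ≤ sc (d.p k) ρ :=
  (d.st k).s0.trans (sc_mono (d.hp k) (d.σ0 k).le h1 h2)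

lemma σs (k : ℕ) : d.σ k ^ 2 ≤ d.s k := pow_le_pow_left₀ (d.σ0 k).le (d.st k).s0 2

lemma σs' (k : ℕ) : d.σ k ≤ d.s k := by nlinarith [d.σs k, d.σ1 k]

lemma s1 (k : ℕ) : 1 ≤ d.s k := by linarith [d.σs' k, d.σ1 k]

lemma st' (k : ℕ) : d.s k ≤ d.t k := by
  obtain ⟨a, -, -, b, c⟩ := d.rads k
  exact pow_le_pow_left₀ ((d.σ0 k).le.trans (d.st k).s0)
    (sc_mono (d.hp k) (d.σ0 k).le (by linarith [d.σ0 k]) b) 2

lemma t1 (k : ℕ) : 1 ≤ d.t k := (d.s1 k).trans (d.st' k)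

lemma tσ (k : ℕ) : d.σ k * d.t k ≤ sc (d.p k) (d.σ k ^ (ex3 k + 1)) ^ 2 := by
  obtain ⟨a, -, e, b, c⟩ := d.rads k
  have h := sc_schwarz (d.hp k) (d.B0 k) e (d.st k).hσ.2.2.2
  rw [pow_succ, mul_assoc] at h
  have h1 := le_of_mul_le_mul_left h (d.B0 k)
  have h2 : d.σ k ≤ sc (d.p k) (d.B k) := d.sc_ge k (by linarith [d.σ0 k]) b
  have h3 := pow_le_pow_left₀ (mul_nonneg (d.σ0 k).le ((d.σ0 k).le.trans h2)) h1 2
  rw [pow_succ (d.σ k)]
  refine le_trans ?_ h3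
  rw [mul_pow]
  exact mul_le_mul_of_nonneg_right (by nlinarith [d.σ1 k]) (sq_nonneg _)

lemma τ4 (k : ℕ) : d.σ k ^ 4 ≤ 2 ^ 14 * d.τ k := by
  have h : d.σ k ^ 2 * d.s k ≤ 2 ^ 14 * d.τ k := (d.st k).s1
  nlinarith [d.σs k, sq_nonneg (d.σ k)]

lemma τσ (k : ℕ) : 2 ^ 16 * d.σ k ≤ d.τ k := by
  have h1 := d.σ1 k
  have h2 : 1024 ^ 3 ≤ d.σ k ^ 3 := pow_le_pow_left₀ (by norm_num) h1 3
  have h3 : d.σ k ^ 4 = d.σ k ^ 3 * d.σ k := by ring
  nlinarith [d.τ4 k]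

lemma τ1 (k : ℕ) : 2 ^ 26 ≤ d.τ k := by linarith [d.τσ k, d.σ1 k]

lemma m1 (k : ℕ) : 1 ≤ d.m k := by
  unfold m; nlinarith [d.τ1 k, sq_nonneg (sc (d.p k) (d.r₀ k + d.η₀ k))]

lemma σtop : Tendsto d.σ d.U atTop :=
  (tendsto_atTop_mono (fun k => (d.st k).hσ.2.1) tendsto_natCast_atTop_atTop).mono_left d.hU

lemma τtop : Tendsto d.τ d.U atTop :=
  tendsto_atTop_mono (fun k => by linarith [d.τσ k, d.σ0 k]) d.σtop

lemma ssmall (ε : ℝ) (hε : 0 < ε) : ∀ᶠ k in d.U, d.s k ≤ ε * d.τ k := by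
  filter_upwards [d.σtop.eventually_ge_atTop (2 ^ 14 / ε)] with k hk
  rw [div_le_iff₀ hε] at hk
  have h1 : d.σ k ^ 2 * d.s k ≤ 2 ^ 14 * d.τ k := (d.st k).s1
  have h2 : d.σ k * d.s k ≤ d.σ k ^ 2 * d.s k :=
    mul_le_mul_of_nonneg_right (by nlinarith [d.σ1 k]) (by linarith [d.s1 k])
  refine le_of_mul_le_mul_left ((h2.trans h1).trans ?_) (d.σ0 k)
  rw [← mul_assoc]
  exact mul_le_mul_of_nonneg_right hk (by linarith [d.τ1 k])

lemma pn (k : ℕ) {ρ : ℝ} (h1 : d.σ k ≤ ρ) (h2 : ρ < d.R k) {z : ℂ} (hz : ‖z‖ ≤ ρ) :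
    ‖d.p k z‖ ≤ 2 * sc (d.p k) ρ ∧ ‖d.p k z‖ ^ 2 + 1 ≤ 5 * sc (d.p k) ρ ^ 2 := by
  have a1 := le_sc (d.hp k) h2 hz
  have a2 := norm_le_norm_sub_add (d.p k z) (d.p k 0)
  have a3 := d.sc_ge k h1 h2
  have a4 : ‖d.p k z‖ ≤ 2 * sc (d.p k) ρ := by linarith [d.hL k, (d.st k).hσ.2.2.1]
  refine ⟨a4, ?_⟩
  have a5 := pow_le_pow_left₀ (norm_nonneg _) a4 2
  nlinarith [d.σ1 k]

lemma mle (k : ℕ) : d.m k ≤ (5 * d.C + 3) * sc (d.p k) (d.r₀ k + d.η₀ k) ^ 2 := by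
  have h := d.τle k fun z hz => (d.pn k (d.σm k) (d.mR k) (by
    linarith [(d.st k).rad.2.2.2.2, d.η0 k])).2
  have a3 := d.sc_ge k (d.σm k) (d.mR k)
  have a4 := (d.st k).hσ.2.2.1
  unfold m
  nlinarith [d.σ1 k]

lemma mτ (k : ℕ) : d.m k ≤ 2 ^ 65 * d.τ k ^ 4 := by
  have a3 := d.sc_ge k (d.σm k) (d.mR k)
  have h := pow_le_pow_left₀ ((d.σ0 k).le.trans a3) (d.st k).s2 2
  have h2 : d.τ k ≤ d.τ k ^ 4 := le_self_pow₀ (by linarith [d.τ1 k]) (by norm_num)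
  have h3 : (2 ^ 32 * d.τ k ^ 2) ^ 2 = 2 ^ 64 * d.τ k ^ 4 := by ring
  unfold m
  linarith [d.τ1 k]

/-- The three growth conditions. -/
def G3 (x : ℕ → ℂ → ℂ) : Prop :=
  Gr d.U 0 d.σ d.s x ∧ Gr d.U 0 d.B d.t x ∧ Gr d.U d.r₀ d.η₀ d.m x

lemma g3_const (c : ℂ) : d.G3 fun _ _ => c := ⟨Gr.const d.s1 c, Gr.const d.t1 c, Gr.const d.m1 c⟩

/-- The ring of sequences of controlled growth. -/
def V : Subring (ℕ → ℂ → ℂ) where
  carrier := {x | x ∈ Set.range d.en ∧ (∀ k, Hol (d.R k) (x k)) ∧ d.G3 x}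
  mul_mem' := fun a b => ⟨d.Tmul _ a.1 _ b.1, fun k => (a.2.1 k).mul (b.2.1 k),
    a.2.2.1.mul b.2.2.1, a.2.2.2.1.mul b.2.2.2.1, a.2.2.2.2.mul b.2.2.2.2⟩
  one_mem' := ⟨d.T1, fun _ => differentiableOn_const _, d.g3_const 1⟩
  add_mem' := fun a b => ⟨d.Tadd _ a.1 _ b.1, fun k => (a.2.1 k).add (b.2.1 k),
    a.2.2.1.add d.s1 b.2.2.1, a.2.2.2.1.add d.t1 b.2.2.2.1, a.2.2.2.2.add d.m1 b.2.2.2.2⟩
  zero_mem' := ⟨d.T0, fun _ => differentiableOn_const _, d.g3_const 0⟩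
  neg_mem' := fun a => ⟨d.Tneg _ a.1, fun k => (a.2.1 k).neg, a.2.2.1.neg, a.2.2.2.1.neg,
    a.2.2.2.2.neg⟩

lemma ddV (x : ℕ → ℂ → ℂ) (h : x ∈ d.V) : dd d.R x ∈ d.V := by
  refine ⟨d.Tdd _ h.1, fun k => dd_hol (h.2.1 k),
    h.2.2.1.dd d.s1 d.σ0 (fun k => ?_) (fun k => ?_) h.2.1,
    h.2.2.2.1.dd d.t1 d.B0 (fun k => ?_) (fun k => ?_) h.2.1,
    h.2.2.2.2.dd d.m1 d.η0 (fun k => (d.mR k).le) (fun k => ?_) h.2.1⟩
  · simpa using (d.σR k).le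
  · exact one_le_mul_of_one_le_of_one_le (by linarith [d.σ1 k]) (one_le_exp (by linarith [d.s1 k]))
  · simpa using (d.rads k).2.2.2.1.le
  · exact one_le_mul_of_one_le_of_one_le (by linarith [(d.rads k).2.2.2.2, d.q k])
      (one_le_exp (by linarith [d.t1 k]))
  · have h1 : 1 ≤ 2 ^ 8 * d.τ k * d.η₀ k := (d.st k).s3
    have h2 : exp (d.τ k) ≤ exp (d.m k) := exp_le_exp.2 (le_add_of_nonneg_left (sq_nonneg _))
    have h3 := quadratic_le_exp_of_nonneg (x := d.τ k) (by linarith [d.τ1 k])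
    have h4 : 2 ^ 8 * d.τ k ≤ exp (d.m k) := by nlinarith [d.τ1 k]
    nlinarith [d.η0 k]

lemma mem_of_bound {x : ℕ → ℂ → ℂ} (hT : x ∈ Set.range d.en) (h : ∀ k, Hol (d.R k) (x k)) {C : ℝ}
    (hC : 0 ≤ C) (hb : ∀ k z, ‖x k z‖ ≤ exp (C * (‖d.p k z‖ ^ 2 + 1))) : x ∈ d.V := by
  have key : ∀ k ρ, d.σ k ≤ ρ → ρ < d.R k → ∀ z, ‖z‖ < ρ →
      ‖x k z‖ ≤ exp (5 * C * sc (d.p k) ρ ^ 2) := fun k ρ h1 h2 z hz => by
    refine (hb k z).trans (exp_le_exp.2 ?_)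
    nlinarith [(d.pn k h1 h2 hz.le).2]
  refine ⟨hT, h, Gr.of_le (C := 5 * C) (by positivity) d.σ0 (Eventually.of_forall fun k z hz => ?_),
    Gr.of_le (C := 5 * C) (by positivity) d.B0 (Eventually.of_forall fun k z hz => ?_),
    Gr.of_le (C := 5 * C) (by positivity) d.η0 (Eventually.of_forall fun k z hz => ?_)⟩
  · exact key k _ le_rfl (d.σR k) z (by simpa using hz)
  · obtain ⟨a, -, -, b, c⟩ := d.rads k
    exact key k _ (by linarith [d.σ0 k]) b z (by simpa using hz)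
  · refine (key k _ (d.σm k) (d.mR k) z hz).trans (exp_le_exp.2 ?_)
    exact mul_le_mul_of_nonneg_left (le_add_of_nonneg_right (by linarith [d.τ1 k])) (by positivity)

/-- Not negligible at stage `k`. -/
def Big (k : ℕ) (x : ℂ → ℂ) : Prop := NZ (d.R k) x ∧ -d.s k ≤ av x 1

lemma crit (x : d.V) (h : ∀ᶠ k in d.U, ∀ z, ‖z‖ ≤ 1 → ‖x.1 k z‖ ≤ exp (-2 * d.s k)) :
    ∀ᶠ k in d.U, ¬ d.Big k (x.1 k) := by
  filter_upwards [h] with k hk hb
  have := av_le (x.2.2.1 k) hb.1 one_pos (d.R1 k) fun z hz => hk z hz.le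
  linarith [hb.2, d.s1 k]

lemma tiny (x : d.V) (h : ∀ᶠ k in d.U, ¬ d.Big k (x.1 k)) (C : ℝ) :
    ∀ᶠ k in d.U, ∀ z, ‖z‖ ≤ 2 * d.σ k ^ 4 → ‖x.1 k z‖ ≤ exp (-C * d.t k) := by
  obtain ⟨C0, c0, c1⟩ := x.2.2.2.2.1 (1 / 2) (by norm_num) (by norm_num)
  obtain ⟨j, hj⟩ := x.2.1
  filter_upwards [h, c1, d.hU (eventually_gt_atTop j),
    d.σtop.eventually_ge_atTop (5 * C0 + 6 * C)] with k h1 h2 h3 h4 z hz
  have hf := x.2.2.1 k
  by_cases hn : NZ (d.R k) (x.1 k)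
  swap
  · have : x.1 k z = 0 := by
      by_contra e
      exact hn ⟨z, mem_ball_zero_iff.2 (hz.trans_lt (d.q k).2), e⟩
    rw [this, norm_zero]; positivity
  have h3' := (d.st k).dich j h3
  simp only [hj] at h3'
  have h5 := h3'.resolve_left fun e => h1 ⟨hn, e⟩
  obtain ⟨-, a1, -, n7, -⟩ := d.rads k
  have n3 := d.tσ k
  have q := d.q k
  have t1 := d.t1 k
  have B0 := d.B0 k
  have a2 : 4 * d.σ k ^ 4 ≤ (4 * d.σ k ^ 4) ^ 2 := le_self_pow₀ (by linarith) (by norm_num)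
  have a3 := av_conv hf hn (ρ := 4 * d.σ k ^ 4) (by linarith) (by linarith)
  have a4 := av_le hf hn (ρ := (4 * d.σ k ^ 4) ^ 2) (by linarith) (by linarith)
    fun z hz => h2 z (by simp only [Pi.zero_apply]; linarith)
  refine (sup_le_av hf hn (ρ := 4 * d.σ k ^ 4) (by linarith) (A := C0 * d.t k) (by positivity)
    (fun z hz => h2 z (by simp only [Pi.zero_apply]; linarith)) (by linarith)
    (by linarith)).trans (exp_le_exp.2 ?_)
  linarith [mul_le_mul_of_nonneg_right h4 (zero_le_one.trans t1)]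

lemma gr1 (x : ℕ → ℂ → ℂ) (h : x ∈ d.V) :
    ∃ C, 0 ≤ C ∧ ∀ᶠ k in d.U, ∀ z, ‖z‖ ≤ 8 → ‖x k z‖ ≤ exp (C * d.s k) := by
  obtain ⟨C0, c0, c1⟩ := h.2.2.1 (1 / 2) (by norm_num) (by norm_num)
  refine ⟨C0, c0, c1.mono fun k hk z hz => hk z ?_⟩
  simp only [Pi.zero_apply]; linarith [d.σ1 k]

/-- The prime ideal of negligible elements. -/
def P : Ideal d.V where
  carrier := {x | ∀ᶠ k in d.U, ¬ d.Big k (x.1 k)}
  add_mem' := fun {x y} hx hy => by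
    apply d.crit
    filter_upwards [d.tiny x hx 3, d.tiny y hy 3] with k a b z hz
    have q := d.q k
    refine (norm_add_le_of_le (a z (by linarith)) (b z (by linarith))).trans ?_
    have h1 : exp (-2 * d.t k) ≤ exp (-2 * d.s k) := exp_le_exp.2 (by linarith [d.st' k])
    have h2 : 2 ≤ exp (d.t k) := by linarith [add_one_le_exp (d.t k), d.t1 k]
    have h3 : exp (-2 * d.t k) = exp (-3 * d.t k) * exp (d.t k) := by
      rw [← exp_add]; congr 1; ring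
    nlinarith [exp_pos (-3 * d.t k)]
  zero_mem' := d.crit 0 (Eventually.of_forall fun k z _ => by simpa using (exp_pos _).le)
  smul_mem' := fun c x hx => by
    apply d.crit
    obtain ⟨C, c0, c1⟩ := d.gr1 c c.2
    filter_upwards [d.tiny x hx (C + 2), c1] with k a b z hz
    have q := d.q k
    refine (norm_mul_le_of_le (b z (by linarith)) (a z (by linarith))).trans ?_
    rw [← exp_add, exp_le_exp]
    nlinarith [d.st' k]

lemma big {x : d.V} (h : x ∉ d.P) : ∀ᶠ k in d.U, d.Big k (x.1 k) := by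
  have := Ultrafilter.eventually_not.2 h
  simpa using this

lemma not_mem {x : d.V} (h : ∀ᶠ k in d.U, d.Big k (x.1 k)) : x ∉ d.P := fun hx => by
  obtain ⟨k, a, b⟩ := (h.and hx).exists
  exact b a

lemma prime : d.P.IsPrime := by
  refine ⟨(Ideal.ne_top_iff_one _).2 (d.not_mem (Eventually.of_forall fun k =>
    ⟨⟨0, mem_ball_self (by linarith [d.R1 k]), by simp⟩, ?_⟩)), fun {x y} h => ?_⟩
  · simp [av, circleAverage_const]; linarith [d.s1 k]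
  · by_contra hc
    push Not at hc
    obtain ⟨k, ⟨a, b⟩, c⟩ := (((d.big hc.1).and (d.big hc.2)).and (d.tiny _ h 3)).exists
    have e1 := av_mul (x.2.2.1 k) (y.2.2.1 k) a.1 b.1 one_pos (d.R1 k)
    have e2 := av_le ((x.2.2.1 k).mul (y.2.2.1 k)) (a.1.mul (x.2.2.1 k) (y.2.2.1 k) b.1) one_pos
      (d.R1 k) fun z hz => c z (by linarith [d.q k])
    change av (fun z => x.1 k z * y.1 k z) 1 ≤ _ at e2
    linarith [a.2, b.2, d.st' k, d.s1 k]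

lemma dP (x : d.V) (h : x ∈ d.P) : (⟨dd d.R x, d.ddV x x.2⟩ : d.V) ∈ d.P := by
  apply d.crit
  filter_upwards [d.tiny x h 2] with k a z hz
  have q := d.q k
  change ‖dd d.R x k z‖ ≤ _
  rw [dd_in _ (mem_ball_zero_iff.2 (by linarith))]
  refine (cauchy_est (x.2.2.1 k) one_pos (by linarith) fun w hw => a w (by linarith)).trans ?_
  rw [div_one, exp_le_exp]
  linarith [d.st' k]

lemma sm_of_le (x : ℕ → ℂ → ℂ) (hx : x ∈ d.V) {t : ℕ → ℝ}
    (ht : ∀ ε : ℝ, 0 < ε → ∀ᶠ k in d.U, t k ≤ ε * d.τ k) {C : ℝ} (hC : 0 ≤ C) (h0 : ∀ k, 0 ≤ t k)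
    (h : ∀ᶠ k in d.U, ∀ z, ‖z‖ = d.r k → ‖x k z‖ ≤ exp (C * t k)) :
    Sm d.U d.r d.τ fun k z => ‖x k z‖ :=
  Sm.of_le ht hC h0 (h.mono fun k hk =>
    ⟨((hx.2.1 k).continuousOn.mono (sph_sub (d.r0 k) (d.rR k))).norm, fun z hz => by
      rw [abs_norm]; exact hk z (by simpa [abs_of_pos (d.r0 k)] using hz)⟩)

lemma const (g h : d.V) (h1 : h ∉ d.P)
    (h2 : ⟨dd d.R g, d.ddV g g.2⟩ * h - g * ⟨dd d.R h, d.ddV h h.2⟩ ∈ d.P) :
    ∃ c : d.V, Sm d.U d.r d.τ (fun n z => ‖c.1 n z‖) ∧ dd d.R c = 0 ∧ g - c * h ∈ d.P := by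
  obtain ⟨Cg, g0, g1⟩ := d.gr1 g g.2
  obtain ⟨Ch, c0, c1⟩ := d.gr1 h h.2
  have low : ∀ᶠ k in d.U, ∀ w, ‖w‖ = d.pt (h.1 k) (d.R k) →
      exp (-((12 * Ch + 13) * d.s k)) ≤ ‖h.1 k w‖ := by
    filter_upwards [c1, d.big h1] with k a b w hw
    have s1 := d.s1 k
    refine le_trans (exp_le_exp.2 ?_) ((d.hpt (h.1 k) (d.R k)).2.2 (h.2.2.1 k)
      (by linarith [d.q k]) _ _ (by positivity) (by linarith) b.1 a b.2 w hw)
    linarith
  have np : ∀ k, ‖(d.pt (h.1 k) (d.R k) : ℂ)‖ = d.pt (h.1 k) (d.R k) := fun k => by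
    rw [Complex.norm_real, Real.norm_of_nonneg (by linarith [(d.hpt (h.1 k) (d.R k)).1])]
  have bd : ∀ᶠ k in d.U, ‖g.1 k (d.pt (h.1 k) (d.R k)) / h.1 k (d.pt (h.1 k) (d.R k))‖ ≤
      exp ((Cg + (12 * Ch + 13)) * d.s k) := by
    filter_upwards [low, g1] with k a b
    rw [norm_div, add_mul, exp_add, div_le_iff₀ ((exp_pos _).trans_le (a _ (np k))), mul_assoc]
    refine (b _ (by rw [np]; linarith [(d.hpt (h.1 k) (d.R k)).2.1])).trans
      (le_mul_of_one_le_right (exp_pos _).le ?_)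
    refine le_trans (le_of_eq ?_) (mul_le_mul_of_nonneg_left (a _ (np k)) (exp_pos _).le)
    rw [← exp_add]; simp
  have p : 0 ≤ Cg + (12 * Ch + 13) := by positivity
  have sm : ∀ k, d.s k ≤ d.m k := fun k => by
    have := pow_le_pow_left₀ ((d.σ0 k).le.trans (d.st k).s0)
      (sc_mono (d.hp k) (d.σ0 k).le (d.σm k) (d.mR k)) 2
    unfold s m
    linarith [d.τ1 k]
  have cV : (fun k (_ : ℂ) => g.1 k (d.pt (h.1 k) (d.R k)) / h.1 k (d.pt (h.1 k) (d.R k))) ∈ d.V :=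
    ⟨d.Tcc _ g.2.1 _ h.2.1, fun k => differentiableOn_const _,
      fun _ _ _ => ⟨_, p, bd.mono fun k a _ _ => a⟩,
      fun _ _ _ => ⟨_, p, bd.mono fun k a _ _ =>
        a.trans (exp_le_exp.2 (mul_le_mul_of_nonneg_left (d.st' k) p))⟩,
      fun _ _ _ => ⟨_, p, bd.mono fun k a _ _ =>
        a.trans (exp_le_exp.2 (mul_le_mul_of_nonneg_left (sm k) p))⟩⟩
  refine ⟨⟨_, cV⟩, d.sm_of_le _ cV d.ssmall p (fun k => by linarith [d.s1 k])
    (bd.mono fun k a _ _ => a), ?_, ?_⟩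
  · ext k z; simp [dd]
  · apply d.crit
    filter_upwards [low, c1, d.tiny _ h2 (Ch + 2 * (12 * Ch + 13) + 5)] with k a b c z hz
    obtain ⟨p2, p3, -⟩ := d.hpt (h.1 k) (d.R k)
    have q := d.q k
    refine (const_est (g.2.2.1 k) (h.2.2.1 k) (by linarith) p3 (by linarith)
      (fun w hw => b w (by linarith)) a (fun w hw => ?_) (hz.trans (by linarith))
      (ε := exp (-(Ch + 2 * (12 * Ch + 13) + 5) * d.t k))).trans ?_
    · have hw' : w ∈ ball (0 : ℂ) (d.R k) := mem_ball_zero_iff.2 (by linarith)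
      simpa [dd_in _ hw'] using c w (by linarith)
    · have e1 : 12 ≤ exp (3 * d.t k) := by
        have : 12 ≤ exp 3 := by
          calc (12 : ℝ) ≤ 2.7 ^ 3 := by norm_num
            _ ≤ exp 1 ^ 3 := by gcongr; linarith [exp_one_gt_d9]
            _ = exp 3 := by rw [← exp_nat_mul]; norm_num
        exact this.trans (exp_le_exp.2 (by linarith [d.t1 k]))
      refine (mul_le_mul_of_nonneg_right (mul_le_mul_of_nonneg_right e1 (exp_pos _).le)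
        (exp_pos _).le).trans ?_
      rw [← exp_add, ← exp_add, exp_le_exp]
      nlinarith [d.st' k]

/-- The width of the annulus. -/
noncomputable def η (k : ℕ) : ℝ := min (d.η₀ k / 4) 1

lemma rη (k : ℕ) : d.r k + d.η k ≤ d.r₀ k + 1 / 2 * d.η₀ k := by
  have := min_le_left (d.η₀ k / 4) 1
  unfold η
  linarith [(d.st k).rad.2.2.2.2]

lemma num (k : ℕ) :
    1 ≤ d.r k ∧ 0 < d.η k ∧ d.η k ≤ 1 ∧ d.r k + d.η k < d.R k ∧ 1 ≤ d.τ k :=
  ⟨d.r1 k, lt_min (by linarith [d.η0 k]) one_pos, min_le_right _ _,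
    by linarith [d.rη k, d.mR k, d.η0 k], by linarith [d.τ1 k]⟩

lemma poly (k : ℕ) : d.r k ≤ d.τ k ^ 2 ∧ 1 ≤ d.η k * d.τ k ^ 2 := by
  have h1 := d.τ1 k
  have h2 : 1 ≤ 2 ^ 8 * d.τ k * d.η₀ k := (d.st k).s3
  have h3 := d.η0 k
  refine ⟨by nlinarith [d.τ4 k, (d.st k).rad.2.2.1, (d.st k).rad.2.2.2.2], ?_⟩
  unfold η
  rcases min_choice (d.η₀ k / 4) 1 with e | e <;> rw [e]
  · nlinarith [mul_le_mul_of_nonneg_left h1 (show 0 ≤ d.τ k * d.η₀ k by positivity)]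
  · nlinarith

lemma up (x : ℕ → ℂ → ℂ) (hx : x ∈ d.V) :
    ∀ᶠ n in d.U, ∀ z, ‖z‖ ≤ d.r n + d.η n → ‖x n z‖ ≤ exp (d.τ n ^ 5) := by
  obtain ⟨C0, c0, c1⟩ := hx.2.2.2.2 (1 / 2) (by norm_num) (by norm_num)
  filter_upwards [c1, d.τtop.eventually_ge_atTop (C0 * 2 ^ 65)] with k a b z hz
  refine (a z (hz.trans (d.rη k))).trans (exp_le_exp.2 ?_)
  have h1 := mul_le_mul_of_nonneg_left (d.mτ k) c0
  have h2 := mul_le_mul_of_nonneg_right b (show 0 ≤ d.τ k ^ 4 by positivity)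
  rw [pow_succ' (d.τ k) 4]
  linarith

lemma up1 (x : ℕ → ℂ → ℂ) (hx : x ∈ d.V) (ε : ℝ) (hε : 0 < ε) :
    ∀ᶠ n in d.U, ∀ z, ‖z‖ ≤ 1 → ‖x n z‖ ≤ exp (ε * d.τ n) := by
  obtain ⟨C0, c0, c1⟩ := d.gr1 x hx
  filter_upwards [c1, d.ssmall (ε / (C0 + 1)) (by positivity)] with k a b z hz
  refine (a z (by linarith)).trans (exp_le_exp.2 ?_)
  rw [div_mul_eq_mul_div, le_div_iff₀ (by positivity)] at b
  nlinarith [d.s1 k]

lemma tiny' (x : d.V) (h : x ∈ d.P) (K : ℕ) :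
    ∀ᶠ n in d.U, ∀ z, ‖z‖ ≤ d.r n + d.η n → ‖x.1 n z‖ ≤ exp (-d.τ n ^ K) := by
  filter_upwards [d.tiny x h 1, d.hU (eventually_ge_atTop K), d.hU
    (tendsto_natCast_atTop_atTop.eventually_ge_atTop (5 * d.C + 2))] with k a b c z hz
  refine (a z (by linarith [d.rη k, (d.st k).rad.2.2.1, d.η0 k])).trans (exp_le_exp.2 ?_)
  have : d.τ k ^ K ≤ d.t k := (d.st k).s4 K b c
  linarith

lemma ann (x : d.V) (h : x ∉ d.P) :
    ∀ᶠ n in d.U, ∀ z, |‖z‖ - d.r n| < (d.τ n ^ 20)⁻¹ → x.1 n z ≠ 0 := by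
  obtain ⟨C0, c0, c1⟩ := x.2.2.2.2.2 (1 / 2) (by norm_num) (by norm_num)
  obtain ⟨j, hj⟩ := x.2.1
  filter_upwards [c1, d.big h, d.hU (eventually_gt_atTop j), d.hU
    (tendsto_natCast_atTop_atTop.eventually_ge_atTop (C0 * (5 * d.C + 3)))] with k a b c e
  have := (d.st k).ann j c
  simp only [hj] at this
  refine this (x.2.2.1 k) b.1 b.2 fun z hz => (a z (by linarith)).trans (exp_le_exp.2 ?_)
  refine (mul_le_mul_of_nonneg_left (d.mle k) c0).trans ?_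
  rw [← mul_assoc]
  exact mul_le_mul_of_nonneg_right e (sq_nonneg _)

lemma gsm (i : Fin N) (h : dd d.R (fun n z => d.p n z i) ∈ d.V) :
    Sm d.U d.r d.τ fun n z => ‖dd d.R (fun n z => d.p n z i) n z‖ := by
  have τ0 : ∀ k, 0 < d.τ k := fun k => by linarith [d.τ1 k]
  refine d.sm_of_le _ h (t := fun k => log (2 ^ 41 * d.τ k ^ 3)) (fun ε hε => ?_) zero_le_one
    (fun k => log_nonneg (one_le_mul_of_one_le_of_one_le (by norm_num)
      (one_le_pow₀ (d.num k).2.2.2.2))) (Eventually.of_forall fun k z hz => ?_)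
  · filter_upwards [log_small d.τtop (log (2 ^ 41)) 3 hε] with k hk
    rw [log_mul (by norm_num) (pow_pos (τ0 k) 3).ne', log_pow (d.τ k)]
    exact_mod_cast hk
  · have a1 := (d.st k).rad.2.2.2.2
    have a2 := d.η0 k
    have a3 := d.mR k
    have a4 : 1 ≤ 2 ^ 8 * d.τ k * d.η₀ k := (d.st k).s3
    have a5 := τ0 k
    rw [one_mul, exp_log (by positivity), dd_in _ (mem_ball_zero_iff.2 (by linarith)),
      ← deriv_sub_const (d.p k 0 i)]
    refine (cauchy_est (R := d.R k) ((differentiableOn_pi.1 (d.hp k) i).sub_const _)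
      (half_pos a2) (by linarith) (B := 2 ^ 32 * d.τ k ^ 2) fun w hw =>
        ((norm_le_pi_norm (d.p k w - d.p k 0) i).trans
          (le_sc (d.hp k) a3 (by linarith))).trans (d.st k).s2).trans ?_
    rw [div_le_iff₀ (half_pos a2)]
    nlinarith [mul_le_mul_of_nonneg_left a4 (show 0 ≤ d.τ k ^ 2 by positivity)]

end BldD

theorem sBld (h : SSt3) : SBld := by
  intro t a M w Θ k L p g1 k0 hp h1 hL
  classical
  obtain ⟨ε, C, hε, hC, gr⟩ := g1.gr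
  have Θ0 : ∀ q, 0 < ‖Θ q‖ := fun q => by
    obtain ⟨b, -, hb⟩ := g1.blk q none
    exact norm_pos_iff.2 fun e => hb (by rw [e]; rfl)
  have lc : Continuous fun q => log ‖Θ q‖ := g1.hol.continuous.norm.log fun q => (Θ0 q).ne'
  let ph : Pt t a → ℝ := fun q => (log ‖Θ q‖ + C) / ε
  have phc : Continuous ph := (lc.add continuous_const).div_const _
  have phb : ∀ q, ∑ i, max (q i).re 0 ≤ ph q ∧ ph q ≤ 2 * C / ε * (‖q‖ ^ 2 + 1) := fun q => by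
    refine ⟨(le_div_iff₀' hε).2 (by linarith [(gr q).1]), ?_⟩
    rw [div_mul_eq_mul_div]
    exact div_le_div_of_nonneg_right (by nlinarith [(gr q).2.1, sq_nonneg ‖q‖]) hε.le
  have ph0 : ∀ q, 0 ≤ ph q := fun q => (sum_nonneg fun _ _ => le_max_right _ _).trans (phb q).1
  let R : ℕ → ℝ := fun n => rad3 n (L n)
  have hpt : ∀ (h : ℂ → ℂ) (R' : ℝ), ∃ ρ : ℝ, 2 ≤ ρ ∧ ρ ≤ 3 ∧ (Hol R' h → 8 < R' → ∀ A s : ℝ,
      0 ≤ A → 0 ≤ s → NZ R' h → (∀ z, ‖z‖ ≤ 8 → ‖h z‖ ≤ exp A) → -s ≤ av h 1 →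
      ∀ w, ‖w‖ = ρ → exp (-(12 * (A + s) + 1)) ≤ ‖h w‖) := fun h R' => by
    by_cases hh : Hol R' h ∧ 8 < R'
    · obtain ⟨ρ, a, b, c⟩ := minmod hh.1 hh.2
      exact ⟨ρ, a, b, fun _ _ => c⟩
    · exact ⟨2, le_rfl, by norm_num, fun a b => absurd ⟨a, b⟩ hh⟩
  choose pt hpt using hpt
  obtain ⟨T, T1, T2, T3⟩ := exists_closed
    ((Set.range fun (c : k) (_ : ℕ) (_ : ℂ) => (c : ℂ)) ∪
      (Set.range fun c n z => Θ (p n z) c) ∪ (Set.range fun i n z => p n z i))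
    (((Set.countable_range _).union (Set.countable_range _)).union (Set.countable_range _))
    ![fun x y => x + y, fun x y => x * y, fun x _ => -x, fun x _ => dd R x,
      fun x y k _ => x k (pt (y k) (R k)) / y k (pt (y k) (R k))]
  have Tc : ∀ c ∈ k, (fun _ _ => c) ∈ T := fun c hc => T2 (Or.inl (Or.inl ⟨⟨c, hc⟩, rfl⟩))
  obtain ⟨en, rfl⟩ := T1.exists_eq_range ⟨_, Tc 0 (zero_mem k)⟩
  choose σ r₀ η₀ r st using fun n => h (t + a) n (L n) (R n) (2 * C / ε) (p n) (fun j => en j n) ph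
    (hp n) le_rfl (h1 n) (hL n) phc (by positivity) phb
  have rr : ∀ n, 0 < r n ∧ r n < R n := fun n => by
    obtain ⟨a1, a2, a3, a4, a5⟩ := (st n).rad
    obtain ⟨b1, -, -, b4⟩ := (st n).hσ
    have c1 : σ n ^ 5 ≤ σ n ^ (ex3 n + 1) := pow_le_pow_right₀ (by linarith) (by
      have := Nat.pow_le_pow_right (n := 2) two_pos (show 1 ≤ n + 1 by omega)
      unfold ex3; omega)
    have c2 : 0 < σ n ^ 4 := by positivity
    have c3 : σ n ^ 5 = σ n * σ n ^ 4 := by ring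
    exact ⟨by linarith, by nlinarith⟩
  have pc : ∀ n, ContinuousOn (p n) (sphere 0 |r n|) := fun n =>
    (hp n).continuousOn.mono (sph_sub (rr n).1 (rr n).2)
  have i1 : ∀ n, CircleIntegrable (fun z => ph (p n z)) 0 (r n) := fun n =>
    (phc.comp_continuousOn (pc n)).circleIntegrable'
  let d : BldD (t + a) :=
    { R := R, L := L, σ := σ, r₀ := r₀, η₀ := η₀, r := r
      τ := fun n => circleAverage (fun z => ph (p n z)) 0 (r n) + L n + 1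
      C := 2 * C / ε, p := p, en := en, U := hyperfilter ℕ, pt := pt
      hU := Nat.hyperfilter_le_atTop
      hC := by positivity
      hp := hp, hL := hL, st := st
      τle := fun n hn => by
        have := circleAverage_mono_on_of_le_circle (i1 n)
          (a := 2 * C / ε * (5 * sc (p n) (r₀ n + η₀ n) ^ 2)) fun z hz =>
            (phb _).2.trans (mul_le_mul_of_nonneg_left
              (hn z (by simpa [abs_of_pos (rr n).1] using hz)) (by positivity))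
        linarith
      hpt := hpt
      Tadd := T3 0
      Tmul := T3 1
      Tneg := fun x hx => T3 2 x hx x hx
      Tdd := fun x hx => T3 3 x hx x hx
      Tcc := T3 4
      T0 := Tc 0 (zero_mem k)
      T1 := Tc 1 (one_mem k) }
  have τe : ∀ n, circleAverage (fun z => ph (p n z)) 0 (r n) = d.τ n - (L n + 1) := fun n => by
    simp only [d]; ring
  have gV : ∀ i, dd R (fun n z => p n z i) ∈ d.V := fun i =>
    d.ddV _ (d.mem_of_bound (T2 (Or.inr ⟨i, rfl⟩)) (fun n => differentiableOn_pi.1 (hp n) i)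
      zero_le_one fun n z => (norm_le_pi_norm (p n z) i).trans (by
        change ‖p n z‖ ≤ exp (1 * (‖p n z‖ ^ 2 + 1))
        nlinarith [add_one_le_exp (1 * (‖p n z‖ ^ 2 + 1)), sq_nonneg (‖p n z‖ - 1)]))
  have Lsm : ∀ ε : ℝ, 0 < ε → ∀ᶠ n in d.U, L n ≤ ε * d.τ n := fun ε hε =>
    (d.ssmall ε hε).mono fun n hn => ((st n).hσ.2.2.1.trans (d.σs' n)).trans hn
  refine ⟨{ U := d.U, R := R, r := r, η := d.η, τ := d.τ, L := L, p := p, V := d.V, P := d.P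
            cnt := ((Set.countable_range en).mono fun x hx => hx.1).to_subtype
            hp := hp
            hol := fun x hx => hx.2.1
            ddV := d.ddV
            prime := d.prime
            dP := d.dP
            cV := fun c hc => ⟨Tc c hc, fun _ => differentiableOn_const _, d.g3_const c⟩
            θV := fun c => d.mem_of_bound (T2 (Or.inl (Or.inr ⟨c, rfl⟩))) (fun n =>
              differentiableOn_pi.1 (g1.hol.comp_differentiableOn (hp n)) c) hC fun n z =>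
                (norm_le_pi_norm (Θ (p n z)) c).trans ((log_le_iff_le_exp (Θ0 _)).1 (gr _).2.1)
            gV := gV
            τtop := d.τtop
            num := d.num
            poly := ⟨2, Eventually.of_forall d.poly⟩
            Lsm := Lsm
            up := fun x hx => ⟨5, d.up x hx⟩
            up1 := d.up1
            tiny := d.tiny'
            big := fun x hx ε hε => ((d.big hx).and (d.ssmall ε hε)).mono fun n hn =>
              ⟨hn.1.1, (neg_le_neg hn.2).trans hn.1.2⟩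
            ann := fun x hx => ⟨20, d.ann x hx⟩
            const := d.const
            gsm := fun i => d.gsm i (gV i)
            lo := ⟨ε / 2, half_pos hε, ?_⟩
            hi := ⟨ε, hε.le, Eventually.of_forall fun n => ?_⟩
            low := ⟨3, ?_⟩ }, rfl, rfl, fun _ => rfl, d.hU⟩
  · filter_upwards [Lsm (1 / 4) (by norm_num), d.τtop.eventually_ge_atTop (4 * (1 + C / ε))]
      with n a1 a2
    have e : (fun z => log ‖Θ (p n z)‖) = fun z => -C + ε * ph (p n z) := by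
      funext z; simp only [ph]; field_simp; ring
    rw [e, avg_aff (i1 n), τe]
    refine ⟨int_aff (i1 n) _ _, ?_⟩
    have a3 : C = ε * (C / ε) := by field_simp
    nlinarith
  · have i2 : CircleIntegrable (fun z => log⁺ ‖Θ (p n z)‖) 0 (r n) :=
      pl_int (g1.hol.continuous.comp_continuousOn (pc n)).norm
    refine ⟨i2, (circleAverage_mono i2 (int_aff (i1 n) 0 ε) fun z _ => ?_).trans ?_⟩
    · have e : ε * ph (p n z) = log ‖Θ (p n z)‖ + C := by simp only [ph]; field_simp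
      have := mul_nonneg hε.le (ph0 (p n z))
      rw [posLog_apply]
      exact max_le (by linarith) (by linarith)
    · rw [avg_aff (i1 n), τe]
      nlinarith [d.L0 n]
  · filter_upwards [d.τtop.eventually_ge_atTop (C * 2 ^ 34)] with n a1 z hz o
    obtain ⟨b, b1, b2⟩ := (gr (p n z)).2.2 o
    refine ⟨b, b1, le_trans (exp_le_exp.2 (neg_le_neg ?_)) b2⟩
    have c1 : ‖p n z‖ ≤ _ := (d.pn n (d.σm n) (d.mR n) (z := z) (by
      have := d.rη n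
      have := d.η0 n
      change ‖z‖ ≤ d.r n + d.η n at hz
      linarith)).1
    have c2 := (d.st n).s2
    have c3 := d.τ1 n
    have c4 : ‖p n z‖ + 1 ≤ 2 ^ 34 * d.τ n ^ 2 := by nlinarith
    have c5 := mul_le_mul_of_nonneg_left c4 hC
    have c6 := mul_le_mul_of_nonneg_right a1 (sq_nonneg (d.τ n))
    rw [pow_succ' (d.τ n) 2]
    linarith

end Pool.Agent.MP_c69980_ag.H43
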